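import Pool.Agent.Lib_helper44.G5.Basic
import Pool.Agent.Lib_helper44.G5.Defs
import Pool.Agent.Lib_helper85.G5.EVP

/-! Block LOGF: the logarithm of the Euler product as a sum over prime powers. -/

namespace Pool.Agent.G5

open Pool.Agent.G4

open Complex MeasureTheory Filter Topology

variable {m : ℕ}

theorem logf_one {z : ℂ} {r : ℝ} (hz : ‖z‖ ≤ r) (hr : r < 1) (K : ℕ) :
    |Real.log ‖(1 - z)⁻¹‖ - (∑ k ∈ Finset.Icc 1 K, z ^ k / k).re| ≤ r ^ (K + 1) * (1 - r)⁻¹ := by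
  have hz1 : ‖-z‖ < 1 := by rw [norm_neg]; linarith
  have h := Complex.norm_log_sub_logTaylor_le K hz1
  have h1 : Complex.logTaylor (K + 1) (-z) = -∑ k ∈ Finset.Icc 1 K, z ^ k / k := by
    rw [Complex.logTaylor, Finset.sum_range_succ', Nat.cast_zero, div_zero, add_zero,
      ← Finset.sum_neg_distrib, show Finset.Icc 1 K = Finset.Ico 1 (K + 1) by
        ext k
        simp only [Finset.mem_Icc, Finset.mem_Ico]
        omega, Finset.sum_Ico_eq_sum_range, Nat.add_sub_cancel]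
    refine Finset.sum_congr rfl fun k _ => ?_
    rw [add_comm 1 k]
    have : (-z) ^ (k + 1) = (-1) ^ (k + 1) * z ^ (k + 1) := by rw [neg_pow]
    rw [this, ← mul_assoc, ← pow_add]
    have h2 : (-1 : ℂ) ^ (k + 1 + 1 + (k + 1)) = -1 := by
      rw [show k + 1 + 1 + (k + 1) = 2 * (k + 1) + 1 by ring, pow_succ, pow_mul]
      simp
    rw [h2]
    ring
  rw [h1, norm_neg] at h
  have h2 : Real.log ‖(1 - z)⁻¹‖ = -(Complex.log (1 + -z)).re := by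
    rw [norm_inv, Real.log_inv, Complex.log_re, sub_eq_add_neg]
  have h3 : Real.log ‖(1 - z)⁻¹‖ - (∑ k ∈ Finset.Icc 1 K, z ^ k / k).re =
      -(Complex.log (1 + -z) - -∑ k ∈ Finset.Icc 1 K, z ^ k / k).re := by
    rw [h2, Complex.sub_re, Complex.neg_re]
    ring
  rw [h3, abs_neg]
  refine (Complex.abs_re_le_norm _).trans (h.trans ?_)
  have hr0 : 0 ≤ ‖z‖ := norm_nonneg z
  have h4 : 0 < 1 - r := by linarith
  have h5 : (1 - ‖z‖)⁻¹ ≤ (1 - r)⁻¹ := inv_anti₀ h4 (by linarith)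
  have h6 : ‖z‖ ^ (K + 1) ≤ r ^ (K + 1) := pow_le_pow_left₀ hr0 hz _
  have h7 : 0 ≤ (1 - ‖z‖)⁻¹ := inv_nonneg.2 (by linarith)
  have h8 : ‖z‖ ^ (K + 1) * (1 - ‖z‖)⁻¹ ≤ r ^ (K + 1) * (1 - r)⁻¹ :=
    mul_le_mul h6 h5 h7 (pow_nonneg (hr0.trans hz) _)
  refine (div_le_self (by positivity) ?_).trans h8
  have : (0 : ℝ) ≤ K := Nat.cast_nonneg _
  linarith

theorem logf_norm (S : Sys m) {p : ℕ} (hp : p.Prime) (x : Ix) {η : ℝ} (hη : 0 < η) (t : ℝ)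
    (j : Fin m) : ‖S.α p j * (ev x p * (p : ℂ) ^ (-(1 / 2 + η + t * I : ℂ)))‖ ≤
      (2 : ℝ) ^ (-η) := by
  have hp0 : (0 : ℝ) < p := by exact_mod_cast hp.pos
  have h1 : ‖(p : ℂ) ^ (-(1 / 2 + η + t * I : ℂ))‖ = (√(p : ℝ))⁻¹ * (p : ℝ) ^ (-η) := by
    rw [Complex.norm_natCast_cpow_of_pos hp.pos, Real.sqrt_eq_rpow, ← Real.rpow_neg hp0.le,
      ← Real.rpow_add hp0]
    congr 1
    simp
    ring
  have h2 : 0 < √(p : ℝ) := Real.sqrt_pos.2 hp0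
  have h3 := alpha_le_pr S hp j
  rw [norm_mul, norm_mul, h1]
  calc ‖S.α p j‖ * (‖ev x p‖ * ((√(p : ℝ))⁻¹ * (p : ℝ) ^ (-η)))
      ≤ √(p : ℝ) * (1 * ((√(p : ℝ))⁻¹ * (p : ℝ) ^ (-η))) := by
        gcongr
        exact bas_norm_ev_le x p
    _ = (p : ℝ) ^ (-η) := by
        rw [one_mul, ← mul_assoc, mul_inv_cancel₀ h2.ne', one_mul]
    _ ≤ 2 ^ (-η) := by
        refine Real.rpow_le_rpow_of_nonpos (by norm_num) ?_ (by linarith)
        exact_mod_cast hp.two_le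

theorem logf_pow (p : ℕ) (hp : p.Prime) (η t : ℝ) (k : ℕ) :
    ((p : ℂ) ^ (-(1 / 2 + η + t * I : ℂ))) ^ k =
      (p : ℂ) ^ (-((k : ℂ) * (1 / 2 + η))) * cexp (-((k * Real.log p * t : ℝ) : ℂ) * I) := by
  have hp0 : (p : ℂ) ≠ 0 := by exact_mod_cast hp.ne_zero
  rw [Complex.cpow_def_of_ne_zero hp0, Complex.cpow_def_of_ne_zero hp0, ← Complex.exp_nat_mul,
    ← Complex.exp_add]
  congr 1
  rw [← Complex.natCast_log]
  push_cast
  ring

theorem logf_inner (S : Sys m) {p : ℕ} (hp : p.Prime) (x : Ix) (η t : ℝ) (K : ℕ) :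
    ∑ j, ∑ k ∈ Finset.Icc 1 K,
      (S.α p j * (ev x p * (p : ℂ) ^ (-(1 / 2 + η + t * I : ℂ)))) ^ k / k =
    ∑ k ∈ Finset.Icc 1 K, cf S η p k * ev x p ^ k * cexp (-((k * Real.log p * t : ℝ) : ℂ) * I) := by
  rw [Finset.sum_comm]
  refine Finset.sum_congr rfl fun k _ => ?_
  rw [cf, Finset.sum_div, Finset.sum_mul, Finset.sum_mul, Finset.sum_mul]
  refine Finset.sum_congr rfl fun j _ => ?_
  rw [mul_pow, mul_pow, logf_pow p hp]
  ring

theorem log_modes_pr (S : Sys m) {η : ℝ} (hη : 0 < η) (P : ℕ) {σ : ℕ → ℝ}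
    (hσ : ∀ p, σ p = 1 ∨ σ p = -1) : ∃ K₀ : ℕ, ∀ K : ℕ, K₀ ≤ K → ∀ (x : Ix) (t : ℝ),
      |(∑ p ∈ Nat.primesBelow (P + 1), σ p * Real.log ‖(∏ j, (1 - S.α p j *
        (ev x p * (p : ℂ) ^ (-(1 / 2 + η + t * I : ℂ)))))⁻¹‖) -
          (FF (fun p k => σ p * cf S η p k) P K x t).re| ≤ 1 := by
  set r : ℝ := 2 ^ (-η) with hr
  have hr0 : 0 < r := Real.rpow_pos_of_pos (by norm_num) _
  have hr1 : r < 1 := Real.rpow_lt_one_of_one_lt_of_neg (by norm_num) (by linarith)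
  have hlim : Tendsto (fun K : ℕ => ((Nat.primesBelow (P + 1)).card * m : ℝ) *
      (r ^ (K + 1) * (1 - r)⁻¹)) atTop (𝓝 0) := by
    have h1 := (tendsto_pow_atTop_nhds_zero_of_lt_one hr0.le hr1).comp (tendsto_add_atTop_nat 1)
    have h2 := (h1.mul_const ((1 - r)⁻¹)).const_mul ((Nat.primesBelow (P + 1)).card * m : ℝ)
    rw [zero_mul, mul_zero] at h2
    exact h2
  obtain ⟨K₀, hK₀⟩ := eventually_atTop.1 (hlim.eventually (ge_mem_nhds (by norm_num : (0:ℝ) < 1)))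
  refine ⟨K₀, fun K hK x t => ?_⟩
  have hb := hK₀ K hK
  have h1 : (FF (fun p k => σ p * cf S η p k) P K x t).re = ∑ p ∈ Nat.primesBelow (P + 1),
      σ p * ∑ j, (∑ k ∈ Finset.Icc 1 K,
        (S.α p j * (ev x p * (p : ℂ) ^ (-(1 / 2 + η + t * I : ℂ)))) ^ k / k).re := by
    rw [FF, Complex.re_sum]
    refine Finset.sum_congr rfl fun p hp => ?_
    have hpp := Nat.prime_of_mem_primesBelow hp
    rw [← Complex.re_sum, logf_inner S hpp x η t K, ← Complex.re_ofReal_mul, Finset.mul_sum]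
    congr 1
    refine Finset.sum_congr rfl fun k _ => ?_
    ring
  have h2 : ∀ p ∈ Nat.primesBelow (P + 1), Real.log ‖(∏ j, (1 - S.α p j *
        (ev x p * (p : ℂ) ^ (-(1 / 2 + η + t * I : ℂ)))))⁻¹‖ = ∑ j, Real.log ‖(1 - S.α p j *
        (ev x p * (p : ℂ) ^ (-(1 / 2 + η + t * I : ℂ))))⁻¹‖ := by
    intro p hp
    have hpp := Nat.prime_of_mem_primesBelow hp
    rw [← Finset.prod_inv_distrib, norm_prod, Real.log_prod]
    intro j _ h0
    rw [norm_eq_zero, inv_eq_zero, sub_eq_zero] at h0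
    have h3 := logf_norm S hpp x hη t j
    rw [← h0, norm_one] at h3
    exact absurd h3 (not_le.2 hr1)
  rw [h1, ← Finset.sum_sub_distrib]
  refine (Finset.abs_sum_le_sum_abs _ _).trans ?_
  have h3 : ∀ p ∈ Nat.primesBelow (P + 1), |σ p * Real.log ‖(∏ j, (1 - S.α p j *
        (ev x p * (p : ℂ) ^ (-(1 / 2 + η + t * I : ℂ)))))⁻¹‖ -
      σ p * ∑ j, (∑ k ∈ Finset.Icc 1 K,
        (S.α p j * (ev x p * (p : ℂ) ^ (-(1 / 2 + η + t * I : ℂ)))) ^ k / k).re| ≤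
      m * (r ^ (K + 1) * (1 - r)⁻¹) := by
    intro p hp
    have hpp := Nat.prime_of_mem_primesBelow hp
    have hσ1 : |σ p| = 1 := by rcases hσ p with h | h <;> simp [h]
    rw [h2 p hp, ← mul_sub, abs_mul, hσ1, one_mul, ← Finset.sum_sub_distrib]
    refine (Finset.abs_sum_le_sum_abs _ _).trans ?_
    calc ∑ j, |Real.log ‖(1 - S.α p j * (ev x p * (p : ℂ) ^ (-(1 / 2 + η + t * I : ℂ))))⁻¹‖ -
          (∑ k ∈ Finset.Icc 1 K,
            (S.α p j * (ev x p * (p : ℂ) ^ (-(1 / 2 + η + t * I : ℂ)))) ^ k / k).re|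
        ≤ ∑ _j : Fin m, r ^ (K + 1) * (1 - r)⁻¹ :=
          Finset.sum_le_sum fun j _ => logf_one (logf_norm S hpp x hη t j) hr1 K
      _ = m * (r ^ (K + 1) * (1 - r)⁻¹) := by
          rw [Finset.sum_const, Finset.card_univ, Fintype.card_fin, nsmul_eq_mul]
  refine (Finset.sum_le_sum h3).trans ?_
  rw [Finset.sum_const, nsmul_eq_mul, ← mul_assoc]
  exact hb


end Pool.Agent.G5
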