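import Pool.Agent.Lib_helper18.G5.MM01
import Pool.Agent.Lib_helper29.G5.LOGF
import Pool.Agent.Lib_helper44.G5.Basic
import Pool.Agent.Lib_helper44.G5.Defs
import Pool.Agent.Lib_helper85.G5.MBCF

/-! Block LOWC: the lower bound in the convergent case. -/

namespace Pool.Agent.G5

open Pool.Agent.G4

open Complex MeasureTheory Filter Topology

variable {m : ℕ}

/-- Chebyshev on an interval -/
theorem lowc_cheb {f : ℝ → ℝ} (hf : Continuous f) {α β : ℝ} (hαβ : α ≤ β) {B c : ℝ} (hB : 0 < B)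
    (h : ∫ t in α..β, f t ^ 2 < B ^ 2 * c) :
    (volume {t ∈ Set.Icc α β | B ≤ |f t|}).toReal ≤ c := by
  set E : Set ℝ := {t ∈ Set.Icc α β | B ≤ |f t|} with hE
  have hEm : MeasurableSet E := by
    have : E = Set.Icc α β ∩ {t | B ≤ |f t|} := rfl
    rw [this]
    exact measurableSet_Icc.inter (measurableSet_le measurable_const hf.abs.measurable)
  have hEI : E ⊆ Set.Icc α β := fun t ht => ht.1
  have hfin : volume E ≠ ⊤ := ne_top_of_le_ne_top (by simp) (measure_mono hEI)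
  have hint : IntegrableOn (fun t => f t ^ 2) (Set.Icc α β) :=
    (hf.pow 2).integrableOn_Icc
  have h1 : (volume E).toReal * B ^ 2 ≤ ∫ t in E, f t ^ 2 := by
    have h2 : ∫ _ in E, B ^ 2 = (volume E).toReal * B ^ 2 := by
      rw [setIntegral_const, smul_eq_mul]
      rfl
    rw [← h2]
    refine setIntegral_mono_on ?_ (hint.mono_set hEI) hEm fun t ht => ?_
    · exact integrableOn_const hfin
    · rw [← sq_abs (f t)]
      exact pow_le_pow_left₀ hB.le ht.2 2
  have h3 : ∫ t in E, f t ^ 2 ≤ ∫ t in α..β, f t ^ 2 := by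
    rw [intervalIntegral.integral_of_le hαβ, ← integral_Icc_eq_integral_Ioc]
    exact setIntegral_mono_set hint (Eventually.of_forall fun t => sq_nonneg _)
      (LE.le.eventuallyLE hEI)
  have h4 : (volume E).toReal * B ^ 2 < c * B ^ 2 := by linarith
  exact (lt_of_mul_lt_mul_right h4 (by positivity)).le

theorem lowc_log (S : Sys m) {B : Finset ℕ} (hB : ∀ p ∈ B, p.Prime) {P : ℕ}
    (hP : ∀ p ∈ B, p ≤ P) (x : Ix) {s : ℂ} (hs : 1 / 2 < s.re) :
    Real.log ‖LP S P x s * PB S B x s ^ 2‖ = ∑ p ∈ Nat.primesBelow (P + 1),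
      (open Classical in if p ∈ B then -1 else 1 : ℝ) *
        Real.log ‖(∏ j, (1 - S.α p j * (ev x p * (p : ℂ) ^ (-s))))⁻¹‖ := by
  classical
  have h1 : Real.log ‖LP S P x s‖ = ∑ p ∈ Nat.primesBelow (P + 1),
      Real.log ‖(∏ j, (1 - S.α p j * (ev x p * (p : ℂ) ^ (-s))))⁻¹‖ := by
    rw [LP, norm_prod, Real.log_prod]
    intro p hp
    exact norm_ne_zero_iff.2 (inv_ne_zero (bs5_factor_ne S (Nat.prime_of_mem_primesBelow hp) x hs))
  have h2 : Real.log ‖PB S B x s‖ = ∑ p ∈ B,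
      Real.log ‖(∏ j, (1 - S.α p j * (ev x p * (p : ℂ) ^ (-s))))‖ := by
    rw [PB, norm_prod, Real.log_prod]
    intro p hp
    exact norm_ne_zero_iff.2 (bs5_factor_ne S (hB p hp) x hs)
  have h3 : Nat.primesBelow (P + 1) ∩ B = B := by
    ext p
    rw [Finset.mem_inter, Nat.mem_primesBelow]
    exact ⟨fun h => h.2, fun h => ⟨⟨Nat.lt_succ_of_le (hP p h), hB p h⟩, h⟩⟩
  have h4 : ∑ p ∈ B, Real.log ‖(∏ j, (1 - S.α p j * (ev x p * (p : ℂ) ^ (-s))))‖ =
      ∑ p ∈ Nat.primesBelow (P + 1), if p ∈ B then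
        Real.log ‖(∏ j, (1 - S.α p j * (ev x p * (p : ℂ) ^ (-s))))‖ else 0 := by
    rw [Finset.sum_ite_mem, h3]
  rw [norm_mul, Real.log_mul (norm_ne_zero_iff.2 (bs5_LP_ne S P x hs))
    (norm_ne_zero_iff.2 (pow_ne_zero _ (bs5_PB_ne S hB x hs))), norm_pow, Real.log_pow, h1, h2, h4,
    Finset.mul_sum, ← Finset.sum_add_distrib]
  refine Finset.sum_congr rfl fun p _ => ?_
  rw [norm_inv, Real.log_inv]
  split_ifs
  · push_cast
    ring
  · push_cast
    ring

theorem lowc_FF_cont (c : ℕ → ℕ → ℂ) (P K : ℕ) (x : Ix) : Continuous (FF c P K x) := by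
  unfold FF
  refine continuous_finsetSum _ fun p _ => continuous_finsetSum _ fun k _ => ?_
  fun_prop

theorem lowc_Ap_nonneg (S : Sys m) (η : ℝ) (p : ℕ) : 0 ≤ Ap S η p := by
  unfold Ap
  exact Finset.sum_nonneg fun i _ => by positivity

theorem lowc_sum_le (S : Sys m) (h : Summable fun p : Nat.Primes => Ap S 0 p) (P : ℕ) :
    ∑ p ∈ Nat.primesBelow (P + 1), Ap S 0 p ≤ ∑' p : Nat.Primes, Ap S 0 p := by
  classical
  set T : Finset Nat.Primes := (Nat.primesBelow (P + 1)).subtype Nat.Prime with hT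
  have h1 : ∑ p ∈ Nat.primesBelow (P + 1), Ap S 0 p = ∑ p ∈ T, Ap S 0 p :=
    (Finset.sum_subtype_of_mem (fun p => Ap S 0 p)
      (fun p hp => Nat.prime_of_mem_primesBelow hp)).symm
  rw [h1]
  exact Summable.sum_le_tsum T (fun p _ => lowc_Ap_nonneg S 0 p) h

theorem low_conv_pr (S : Sys m) (h : Summable fun p : Nat.Primes => Ap S 0 p) {B : Finset ℕ}
    (hB : ∀ p ∈ B, p.Prime) {α β : ℝ} (hαβ : α < β) {ε : ℝ} (hε : 0 < ε) : ∃ R : ℝ,
      ∀ η ∈ Set.Ioc (0 : ℝ) (1 / 4), ∃ P₀ : ℕ, ∀ P : ℕ, P₀ ≤ P → ∃ Q₀ : ℕ, ∀ Q : ℕ, Q₀ ≤ Q →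
        ∃ G : Finset Ix, G ⊆ pairs S.N Q ∧ (G.card : ℝ) ≤ ε * Q ^ 2 ∧
          ∀ x ∈ pairs S.N Q, x ∉ G → (β - α) / 2 ≤ (volume {t ∈ Set.Icc α β |
            R ≤ Real.log ‖LP S P x (1 / 2 + η + t * I) *
              PB S B x (1 / 2 + η + t * I) ^ 2‖}).toReal := by
  classical
  obtain ⟨C₁, C₀, hC₁, hC₀, hMB⟩ := mb_cf_pr S
  set A : ℝ := ∑' p : Nat.Primes, Ap S 0 p with hA
  have hA0 : 0 ≤ A := tsum_nonneg fun p => lowc_Ap_nonneg S 0 p
  have hβα : 0 < β - α := by linarith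
  set V : ℝ := (C₀ * A + 1) * (β - α) with hV
  have hV0 : 0 < V := by positivity
  -- the threshold `M`: `V / ε < M² (β - α)/2`
  set M : ℝ := √(4 * V / (ε * (β - α))) with hM
  have hM2 : M ^ 2 = 4 * V / (ε * (β - α)) := Real.sq_sqrt (by positivity)
  have hM0 : 0 < M := Real.sqrt_pos.2 (by positivity)
  have hMV : V / ε < M ^ 2 * ((β - α) / 2) := by
    rw [hM2]
    have : 4 * V / (ε * (β - α)) * ((β - α) / 2) = 2 * (V / ε) := by
      field_simp
      ring
    rw [this]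
    have : 0 < V / ε := by positivity
    linarith
  refine ⟨-M - 1, fun η hη => ⟨B.sup id, fun P hP => ?_⟩⟩
  have hη0 : 0 < η := hη.1
  have hBP : ∀ p ∈ B, p ≤ P := fun p hp => (Finset.le_sup (f := id) hp).trans hP
  set σ : ℕ → ℝ := fun p => if p ∈ B then -1 else 1 with hσ
  have hσ1 : ∀ p, σ p = 1 ∨ σ p = -1 := by
    intro p
    simp only [hσ]
    split_ifs
    · exact Or.inr rfl
    · exact Or.inl rfl
  obtain ⟨K₀, hK₀⟩ := log_modes_pr S hη0 P hσ1
  set K : ℕ := max K₀ m with hK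
  have hK1 := hK₀ K (le_max_left _ _)
  set c : ℕ → ℕ → ℂ := fun p k => σ p * cf S η p k with hc
  have hVF : VF c P K ≤ C₀ * A :=
    (hMB σ hσ1 η hη0.le P K (le_max_right _ _)).2.2.trans
      (mul_le_mul_of_nonneg_left (lowc_sum_le S h P) hC₀.le)
  obtain ⟨Q₀, hQ₀⟩ := mm0_pr S.N c P K
  refine ⟨Q₀, fun Q hQ => ?_⟩
  have hFc : ∀ x, Continuous fun t => ‖FF c P K x t‖ := fun x => (lowc_FF_cont c P K x).norm
  have h1 : ∑ x ∈ pairs S.N Q, ∫ t in α..β, ‖FF c P K x t‖ ^ 2 ≤ V * Q ^ 2 := by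
    have hint : ∀ x : Ix, IntervalIntegrable (fun t => ‖FF c P K x t‖ ^ 2) volume α β :=
      fun x => ((hFc x).pow 2).intervalIntegrable _ _
    rw [← intervalIntegral.integral_finsetSum (fun x _ => hint x)]
    calc ∫ t in α..β, ∑ x ∈ pairs S.N Q, ‖FF c P K x t‖ ^ 2
        ≤ ∫ _t in α..β, (C₀ * A + 1) * (Q : ℝ) ^ 2 := by
          refine intervalIntegral.integral_mono_on hαβ.le ?_ (by simp) fun t _ => ?_
          · exact (continuous_finsetSum _ fun x _ => (hFc x).pow 2).intervalIntegrable _ _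
          · refine (hQ₀ Q hQ t).trans ?_
            gcongr
      _ = V * Q ^ 2 := by
          rw [intervalIntegral.integral_const, smul_eq_mul, hV]
          ring
  refine ⟨(pairs S.N Q).filter fun x => V / ε ≤ ∫ t in α..β, ‖FF c P K x t‖ ^ 2,
    Finset.filter_subset _ _, ?_, fun x hx hxG => ?_⟩
  · refine bas_markov (fun x => ∫ t in α..β, ‖FF c P K x t‖ ^ 2) (fun x _ => ?_)
      (by positivity : 0 < V / ε) h1 ?_
    · exact intervalIntegral.integral_nonneg hαβ.le fun t _ => by positivity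
    · rw [mul_div_cancel₀ _ hε.ne']
  · have h2 : ∫ t in α..β, ‖FF c P K x t‖ ^ 2 < V / ε := by
      by_contra hcon
      exact hxG (Finset.mem_filter.2 ⟨hx, not_lt.1 hcon⟩)
    have h3 := lowc_cheb (hFc x) hαβ.le hM0 (h2.trans hMV)
    set E : Set ℝ := {t ∈ Set.Icc α β | M ≤ |‖FF c P K x t‖|} with hE
    set T : Set ℝ := {t ∈ Set.Icc α β | -M - 1 ≤ Real.log ‖LP S P x (1 / 2 + η + t * I) *
              PB S B x (1 / 2 + η + t * I) ^ 2‖} with hT
    have hsub : Set.Icc α β ⊆ E ∪ T := by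
      intro t ht
      by_cases htE : t ∈ E
      · exact Or.inl htE
      · right
        refine ⟨ht, ?_⟩
        have h4 : ‖FF c P K x t‖ < M := by
          by_contra hcon
          refine htE ⟨ht, ?_⟩
          rw [abs_of_nonneg (norm_nonneg _)]
          exact not_lt.1 hcon
        have h5 := hK1 x t
        rw [lowc_log S hB hBP x (by simp; linarith)]
        have h6 := (abs_le.1 h5).1
        have h7 := (abs_le.1 (Complex.abs_re_le_norm (FF c P K x t))).1
        have h8 : (FF c P K x t).re - 1 ≤ ∑ p ∈ Nat.primesBelow (P + 1), σ p *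
            Real.log ‖(∏ j, (1 - S.α p j * (ev x p *
              (p : ℂ) ^ (-(1 / 2 + η + t * I : ℂ)))))⁻¹‖ := by
          linarith
        refine le_trans ?_ h8
        linarith
    have hfE : volume E ≠ ⊤ := ne_top_of_le_ne_top (by simp)
      (measure_mono (fun t ht => ht.1 : E ⊆ Set.Icc α β))
    have hfT : volume T ≠ ⊤ := ne_top_of_le_ne_top (by simp)
      (measure_mono (fun t ht => ht.1 : T ⊆ Set.Icc α β))
    have h9 := ENNReal.toReal_mono (ENNReal.add_ne_top.2 ⟨hfE, hfT⟩)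
      ((measure_mono hsub).trans (measure_union_le _ _))
    rw [ENNReal.toReal_add hfE hfT, Real.volume_Icc, ENNReal.toReal_ofReal hβα.le] at h9
    linarith


end Pool.Agent.G5
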