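import Pool.Agent.Lib_helper44.G5.Defs

/-! Block VLRG: the variance is large in the divergent case. -/

namespace Pool.Agent.G5

open Pool.Agent.G4

open Complex MeasureTheory Filter Topology

variable {m : ℕ}

theorem vlrg_nonneg (S : Sys m) (η : ℝ) (p : ℕ) : 0 ≤ Ap S η p := by
  unfold Ap
  exact Finset.sum_nonneg fun i _ => by positivity

theorem vlrg_cont (S : Sys m) {p : ℕ} (hp : p.Prime) : Continuous fun η : ℝ => Ap S η p := by
  unfold Ap
  refine continuous_finsetSum _ fun i _ => continuous_const.mul ?_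
  have hp0 : (p : ℝ) ≠ 0 := by exact_mod_cast hp.ne_zero
  exact (Real.continuous_const_rpow hp0).comp (by fun_prop)

theorem var_large_pr (S : Sys m) (h : ¬ Summable fun p : Nat.Primes => Ap S 0 p) (M : ℝ) :
    ∃ η₀ : ℝ, 0 < η₀ ∧ ∀ η ∈ Set.Ioc (0 : ℝ) η₀, ∃ P₀ : ℕ, ∀ P : ℕ, P₀ ≤ P →
      M ≤ ∑ p ∈ Nat.primesBelow (P + 1), Ap S η p := by
  classical
  -- a large partial sum
  have hex : ∃ T : Finset Nat.Primes, M + 1 ≤ ∑ p ∈ T, Ap S 0 p := by
    by_contra hcon
    push Not at hcon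
    apply h
    exact summable_of_sum_le (c := M + 1) (fun p => vlrg_nonneg S 0 p) (fun T => (hcon T).le)
  obtain ⟨T, hT⟩ := hex
  obtain ⟨P₀, hP₀⟩ : ∃ P₀ : ℕ, ∀ p ∈ T, (p : ℕ) ≤ P₀ := by
    refine ⟨T.sup fun p => (p : ℕ), fun p hp => ?_⟩
    exact Finset.le_sup (f := fun p : Nat.Primes => (p : ℕ)) hp
  have hcont : Continuous fun η : ℝ => ∑ p ∈ T, Ap S η p :=
    continuous_finsetSum _ fun p _ => vlrg_cont S p.2
  have h0 : M < ∑ p ∈ T, Ap S 0 p := by linarith
  have hev := hcont.continuousAt.eventually (lt_mem_nhds h0)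
  obtain ⟨δ, hδ, hball⟩ := Metric.eventually_nhds_iff.1 hev
  refine ⟨δ / 2, by positivity, fun η hη => ⟨P₀, fun P hP => ?_⟩⟩
  have h1 := hball (y := η) (by
    rw [Real.dist_eq, sub_zero, abs_of_pos hη.1]; linarith [hη.2])
  refine h1.le.trans ?_
  rw [← Finset.sum_image (s := T) (g := fun p : Nat.Primes => (p : ℕ))
    (f := fun p : ℕ => Ap S η p) (fun a _ b _ hab => Subtype.ext hab)]
  apply Finset.sum_le_sum_of_subset_of_nonneg
  · intro p hp
    rw [Finset.mem_image] at hp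
    obtain ⟨p', hp', rfl⟩ := hp
    rw [Nat.mem_primesBelow]
    exact ⟨by have := hP₀ p' hp'; omega, p'.2⟩
  · intro p _ _
    exact vlrg_nonneg S η p

end Pool.Agent.G5
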